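import Mathlib
import Pool.Agent.H562R2.PerfectSdp
import Pool.Agent.H562R2.HyperGame

/-!
Exact spectral threshold `1/2` of the basic semidefinite relaxation of two-to-one games with
perfect completeness.
-/

set_option autoImplicit false

namespace Pool.Agent.Results.MP_ec946a_lc.BasicSdpThreshold

open Pool.Agent.H562R2

/-- Rounding of perfect solutions when the gap exceeds `1/2`, and games of gap `1/2` with perfect
solutions and arbitrarily small value. -/
theorem result :
    (∀ (U V E A B D : Type) [Fintype U] [Fintype V] [Fintype E] [Nonempty E] [Fintype A]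
      [Fintype B] [DecidableEq B] [Fintype D] (s : E → U) (t : E → V) (π : E → A → B)
      (x : U → A → D → ℝ) (y : V → B → D → ℝ) (lam : ℝ),
      (∀ e b, (Finset.univ.filter fun a => π e a = b).card ≤ 2) →
      HasGap s t lam → 1 / 2 ≤ lam → lam ≤ 1 → BasicSdp s t x y →
      (Fintype.card E : ℝ) ≤ ∑ e, ∑ a, x (s e) a ⬝ᵥ y (t e) (π e a) →
      ∃ (L : U → A) (M : V → B), (1 - 1 / (2 * lam)) ^ 2 * Fintype.card E ≤
        ((Finset.univ.filter fun e => π e (L (s e)) = M (t e)).card : ℝ)) ∧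
    (∀ δ : ℝ, 0 < δ →
      ∃ (U V E A D : Type) (_ : Fintype U) (_ : Fintype V) (_ : Fintype E) (_ : Nonempty E)
        (_ : Fintype A) (_ : DecidableEq A) (_ : Fintype D) (s : E → U) (t : E → V)
        (π : E → A → A) (x : U → A → D → ℝ) (y : V → A → D → ℝ),
        (∀ e b, (Finset.univ.filter fun a => π e a = b).card ≤ 2) ∧
        HasGap s t (1 / 2) ∧ BasicSdp s t x y ∧
        (Fintype.card E : ℝ) ≤ ∑ e, ∑ a, x (s e) a ⬝ᵥ y (t e) (π e a) ∧
        ∀ (L : U → A) (M : V → A),
          ((Finset.univ.filter fun e => π e (L (s e)) = M (t e)).card : ℝ) ≤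
            δ * Fintype.card E) := by
  refine ⟨?_, ?_⟩
  · intro U V E A B D _ _ _ _ _ _ _ _ s t π x y lam hfib hgap hlam hlam1 hfeas hval
    classical
    by_contra hcon
    push Not at hcon
    obtain ⟨z, hz1, hz2, hz3, hz4, hz5, hxy⟩ := hfeas
    have hx : ∀ u, Fam z (x u) := fun u => ⟨hz1, hz2 u, hz4 u⟩
    have hy : ∀ v, Fam z (y v) := fun v => ⟨hz1, hz3 v, hz5 v⟩
    have hneA : Nonempty (U → A) ∧ Nonempty (V → B) := by
      constructor
      · by_contra hne
        rw [not_nonempty_iff, isEmpty_pi] at hne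
        obtain ⟨u, hu⟩ := hne
        have h1 := (hx u).sum_norm
        rw [Fintype.sum_empty] at h1
        exact zero_ne_one h1
      · by_contra hne
        rw [not_nonempty_iff, isEmpty_pi] at hne
        obtain ⟨v, hv⟩ := hne
        have h1 := (hy v).sum_norm
        rw [Fintype.sum_empty] at h1
        exact zero_ne_one h1
    obtain ⟨⟨L0⟩, ⟨M0⟩⟩ := hneA
    obtain ⟨p, -, hp⟩ := Finset.exists_max_image (Finset.univ : Finset ((U → A) × (V → B)))
      (fun p => (Finset.univ.filter fun e => π e (p.1 (s e)) = p.2 (t e)).card)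
      ⟨(L0, M0), Finset.mem_univ _⟩
    have h1 := basic_round_two s t π hfib lam hlam hlam1 hgap
      ⟨z, hz1, hz2, hz3, hz4, hz5, hxy⟩ hval
      ((Finset.univ.filter fun e => π e (p.1 (s e)) = p.2 (t e)).card : ℝ)
      (fun L M => by exact_mod_cast hp (L, M) (Finset.mem_univ _))
    have h2 := hcon p.1 p.2
    linarith
  · intro δ hδ
    -- parameters
    obtain ⟨j, hj⟩ : ∃ j : ℕ, 1 / ((j : ℝ) + 1) < δ ^ 2 / 4 :=
      exists_nat_one_div_lt (by positivity)
    obtain ⟨k, hk⟩ : ∃ k : ℕ, 3 ^ j * Real.sqrt (1 / 2 ^ (k + 1)) ≤ δ ^ 2 / 4 := by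
      obtain ⟨k, hk⟩ := exists_pow_lt_of_lt_one
        (show (0 : ℝ) < (δ ^ 2 / 4 / 3 ^ j) ^ 2 by positivity) (show (1 / 2 : ℝ) < 1 by norm_num)
      refine ⟨k, ?_⟩
      rw [mul_comm, ← le_div_iff₀ (by positivity)]
      apply Real.sqrt_le_iff.mpr
      refine ⟨by positivity, ?_⟩
      rw [← one_div_pow, pow_succ]
      have : (0 : ℝ) < (1 / 2) ^ k := by positivity
      linarith
    have hDir : Nonempty (Dir (k + 1)) := ⟨⟨fun _ => 1, fun h => by
      have h1 : (true : Bool) = false := congrFun h 0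
      exact absurd h1 (by decide)⟩⟩
    have hfx : ∀ f : Fn (k + 1), Fam (fun S => if S = 0 then (1 : ℝ) else 0) (xv f) := fun f =>
      ⟨zfun_unit, xv_sum f, xv_orth f⟩
    refine ⟨Fn (k + 1), Dir (k + 1) × Fn (k + 1), HE (k + 1), Gam (k + 1), Gam (k + 1),
      inferInstance, inferInstance, inferInstance, inferInstance, inferInstance, inferInstance,
      inferInstance, hs, ht, hp, xv, yv, hp_fiber, hhasGap, ?_, ?_, ?_⟩
    · refine ⟨fun S => if S = 0 then (1 : ℝ) else 0, zfun_unit, xv_sum, yv_sum, xv_orth,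
        yv_orth, ?_⟩
      intro e a b
      rw [perf_dot (hfx (hs e)) (hp e) (perfect_edge e)]
      split_ifs
      · exact dot_self_nonneg _
      · exact le_refl _
    · have h1 : ∀ e : HE (k + 1), ∑ a, xv (hs e) a ⬝ᵥ yv (ht e) (hp e a) = 1 := by
        intro e
        rw [← (hfx (hs e)).sum_norm]
        refine Finset.sum_congr rfl fun a _ => ?_
        rw [perf_dot (hfx (hs e)) (hp e) (perfect_edge e), if_pos rfl]
      simp only [h1]
      simp
    · intro L M
      refine (hvalue L M j (2 / δ) (by positivity)).trans ?_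
      apply mul_le_mul_of_nonneg_right _ (Nat.cast_nonneg _)
      have h1 : 3 ^ j * Real.sqrt (1 / 2 ^ (k + 1)) + 1 / ((j : ℝ) + 1) ≤ δ ^ 2 / 2 := by
        linarith
      calc 2 / δ / 2 * (3 ^ j * Real.sqrt (1 / 2 ^ (k + 1)) + 1 / ((j : ℝ) + 1)) + 1 / (2 / δ)
          ≤ 2 / δ / 2 * (δ ^ 2 / 2) + 1 / (2 / δ) := by
            have : 0 ≤ 2 / δ / 2 := by positivity
            have := mul_le_mul_of_nonneg_left h1 this
            linarith
        _ = δ := by
            field_simp
            ring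

end Pool.Agent.Results.MP_ec946a_lc.BasicSdpThreshold
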