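import Pool.Agent.H589R3.DT.Two

/-!
The 2-to-1 games conjecture with perfect completeness holds unconditionally in the model of
randomised circuits of monotone real gates: for every `δ > 0` there is an alphabet size `q` such
that such circuits need exponential size to tell the 2-to-1 games with alphabet `[q]` (on both
sides) of value one from those of value at most `δ`.  The inputs are the constraints of the game,
and the gates are arbitrary nondecreasing real functions of two values; some nondecreasing function
of the constraints decides the problem.  (If all fibres have at most one element then label
propagation is computed by monotone circuits of polynomial size.)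

Proof: see `Pool/Agent/H589R3/DT`.  A label of `u` is a pair of an element `x` of `ℤ/p` and a bit
`j`; the constraint on the `i`-th edge at `u` is `label v = x - i j + s`, with a shift `s`.  On a
sparse graph of large girth some choice of the shifts makes the value small (counting), but the
labels of the ends of long nonbacktracking walks are independent, so that closed sets have locally
consistent labellings.  Each vertex is blown up to a cloud.  The NO instances of the hard
distribution are random copies of the game, one vertex per cloud; the YES instances consist of all
constraints satisfied by random labels of the vertices of the clouds.  The functions computed by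
small circuits are approximated by level functions on the locally consistent labellings.
-/

namespace Pool.Agent.Results.MP_ec946a_lc.MonotoneCircuits

open H630VC H589DT

/-- (1) For all `δ > 0` there are `q` and `N0` such that for all `N ≥ N0`: every randomised circuit
(a finite family `l ω`, `ω ∈ Ω`) of monotone real gates which, on the 2-to-1 games with `N` vertices
on each side and alphabet `[q]`, tells the games of value at most `δ` from those of value one for at
least three quarters of the `ω`, has a member with at least `2^(N^(1/14))` gates. (2) If `δ < 1`
then some nondecreasing function of the inputs is one on all games of value at most `δ` and zero on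
all games of value one. -/
theorem result :
    (∀ δ : ℝ, 0 < δ → ∃ q : ℕ, 1 ≤ q ∧ ∃ N0 : ℕ, ∀ N : ℕ, N0 ≤ N →
      ∀ (Ω : Type) [Fintype Ω] [Nonempty Ω] (l : Ω → List (TGame (Fin N) (Fin N) q → ℝ)),
      (∀ ω, Prog (tInputs (Fin N) (Fin N) q) (l ω)) → TDecides δ l →
      ∃ ω, (2 : ℝ) ^ ((N : ℝ) ^ (1 / 14 : ℝ)) ≤ (l ω).length) ∧
    (∀ δ : ℝ, δ < 1 → ∀ (U V : Type) [Fintype U] [Fintype V] (q : ℕ),
      ∃ f : TGame U V q → ℝ, (∀ I J, (∀ g ∈ tInputs U V q, g I ≤ g J) → f I ≤ f J) ∧
      ∀ I, (TNo δ I → f I = 1) ∧ (TYes I → f I = 0)) :=
  ⟨fun δ hδ => two2one δ hδ, fun δ hδ U V _ _ q => two2one_monotone δ hδ U V q⟩

end Pool.Agent.Results.MP_ec946a_lc.MonotoneCircuits
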