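import Mathlib
import Pool.Agent.H562R2.PerfectSdp

/-!
The relaxation with pairwise nonnegative inner products goes beyond the threshold of the basic
relaxation on two-to-one games with perfect completeness.
-/

set_option autoImplicit false

namespace Pool.Agent.Results.MP_ec946a_lc.PairwiseSdp

open Pool.Agent.H562R2

/-- Rounding of perfect solutions of the pairwise relaxation when the second singular value
`1 - lam` is at most `1 / √2`. -/
theorem result (U V E A B D : Type) [Fintype U] [Fintype V] [Fintype E] [Nonempty E] [Fintype A]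
    [Fintype B] [DecidableEq B] [Fintype D] (s : E → U) (t : E → V) (π : E → A → B)
    (x : U → A → D → ℝ) (y : V → B → D → ℝ) (lam : ℝ)
    (hfib : ∀ e b, (Finset.univ.filter fun a => π e a = b).card ≤ 2)
    (hgap : HasGap s t lam) (hlam : 1 - lam ≤ 1 / Real.sqrt 2) (hlam1 : lam ≤ 1)
    (hfeas : SdpFeasible x y)
    (hval : (Fintype.card E : ℝ) ≤ ∑ e, ∑ a, x (s e) a ⬝ᵥ y (t e) (π e a)) :
    ∃ (L : U → A) (M : V → B), (1 - (1 - 1 / Real.sqrt 2) / lam) ^ 2 * Fintype.card E ≤
      ((Finset.univ.filter fun e => π e (L (s e)) = M (t e)).card : ℝ) := by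
  classical
  by_contra hcon
  push Not at hcon
  obtain ⟨z, hx, hy⟩ := hfeas.left
  have hneA : Nonempty (U → A) ∧ Nonempty (V → B) := by
    constructor
    · by_contra hne
      rw [not_nonempty_iff, isEmpty_pi] at hne
      obtain ⟨u, hu⟩ := hne
      have h1 := (hx u).sum_norm
      rw [Fintype.sum_empty] at h1
      exact zero_ne_one h1
    · by_contra hne
      rw [not_nonempty_iff, isEmpty_pi] at hne
      obtain ⟨v, hv⟩ := hne
      have h1 := (hy v).sum_norm
      rw [Fintype.sum_empty] at h1
      exact zero_ne_one h1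
  obtain ⟨⟨L0⟩, ⟨M0⟩⟩ := hneA
  obtain ⟨p, -, hp⟩ := Finset.exists_max_image (Finset.univ : Finset ((U → A) × (V → B)))
    (fun p => (Finset.univ.filter fun e => π e (p.1 (s e)) = p.2 (t e)).card)
    ⟨(L0, M0), Finset.mem_univ _⟩
  have hlam0 : 0 < lam := by
    have h1 : 1 / Real.sqrt 2 < 1 := by
      rw [div_lt_one (by positivity)]
      exact Real.lt_sqrt_of_sq_lt (by norm_num)
    linarith
  have h1 := pair_round s t π hfib lam hlam0 hlam1 hgap hlam hfeas hval
    ((Finset.univ.filter fun e => π e (p.1 (s e)) = p.2 (t e)).card : ℝ)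
    (fun L M => by exact_mod_cast hp (L, M) (Finset.mem_univ _))
  have h2 := hcon p.1 p.2
  linarith

end Pool.Agent.Results.MP_ec946a_lc.PairwiseSdp
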