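import Mathlib
import Pool.Agent.H562R2.MatrixGame

/-!
Exact spectral threshold for the number of far-apart perfect labelings of two-to-one games.
-/

set_option autoImplicit false

namespace Pool.Agent.Results.MP_ec946a_lc.PerfectClusters

open Pool.Agent.H562R2

/-- Two-to-one games whose second singular value is below `1 / √2` have a bounded number of
far-apart good labelings; at `1 / √2` there are arbitrarily many far-apart perfect ones. -/
theorem result :
    (∀ (U V E A B I : Type) [Fintype U] [Fintype V] [Fintype E] [Nonempty E] [Fintype A]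
        [Fintype B] [DecidableEq B] [Fintype I] (s : E → U) (t : E → V) (π : E → A → B)
        (lam ε α : ℝ) (L : I → U → A) (M : I → V → B),
        (∀ e b, (Finset.univ.filter fun a => π e a = b).card ≤ 2) →
        HasGap s t lam → lam ≤ 1 → ε ≤ 1 → 0 < lam → 1 - lam ≤ (1 - ε) ^ 2 / Real.sqrt 2 →
        α ≤ 1 →
        (∀ i, (1 - ε) * Fintype.card E ≤
          ((Finset.univ.filter fun e => π e (L i (s e)) = M i (t e)).card : ℝ)) →
        (∀ i j, i ≠ j → ((Finset.univ.filter fun e => M i (t e) = M j (t e)).card : ℝ) ≤
          α * Fintype.card E) →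
        Fintype.card I * ((1 - (1 - (1 - ε) ^ 2 / Real.sqrt 2) / lam) ^ 2 - α) ≤
          (1 - α) * Fintype.card A) ∧
    (∀ l N : ℕ, 1 ≤ l → ∃ (U V E A B I : Type) (_ : Fintype U) (_ : Fintype V) (_ : Fintype E)
        (_ : Nonempty E) (_ : Fintype A) (_ : Fintype B) (_ : DecidableEq B) (_ : Fintype I)
        (s : E → U) (t : E → V) (π : E → A → B) (L : I → U → A) (M : I → V → B),
        Fintype.card A = 2 ^ l ∧ Fintype.card B = 2 ^ l ∧
        (∀ e b, (Finset.univ.filter fun a => π e a = b).card ≤ 2) ∧
        HasGap s t (1 - 1 / Real.sqrt 2) ∧ N ≤ Fintype.card I ∧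
        (∀ i e, π e (L i (s e)) = M i (t e)) ∧
        (∀ i j, i ≠ j → ((Finset.univ.filter fun e => M i (t e) = M j (t e)).card : ℝ) ≤
          2 / 2 ^ l * Fintype.card E)) := by
  classical
  constructor
  · intro U V E A B I _ _ _ _ _ _ _ _ s t π lam ε α L M hfib hgap hlam1 hε hlam0 hlam hα hval
      hagree
    have hs2 : 0 < Real.sqrt 2 := by positivity
    rcases isEmpty_or_nonempty I with hI | hI
    · rw [Fintype.card_eq_zero, Nat.cast_zero, zero_mul]
      exact mul_nonneg (by linarith) (Nat.cast_nonneg _)
    · have hfeas := mvec_feasible L M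
      obtain ⟨z, hx, hy⟩ := hfeas.left
      have h1 := mix_val s t π L M (1 - ε) hval
      have h2 := avg_edge s t π ε (Real.sqrt 2) hε hs2 h1
        (fun e => ker_edge_two' (hx (s e)) (hy (t e)) (π e) (hfib e))
      exact cluster s t lam _ hlam0 hlam1 hgap L M α hα hagree h2 hlam
  · intro l N hl
    have hdir : Nonempty (Dir l) := by
      refine ⟨⟨fun _ => true, ?_⟩⟩
      intro h
      have h1 : (true : Bool) = false := congrFun h ⟨0, by omega⟩
      exact absurd h1 (by decide)
    refine ⟨Mt N l, Dir l × Mt N l, Mt N l × Dir l, Gam l, Gam l, Fin N → Bool,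
      inferInstance, inferInstance, inferInstance, inferInstance, inferInstance, inferInstance,
      inferInstance, inferInstance, gs, gt, gp, fun w A => lin w A, fun w p => lin w p.2,
      ?_, ?_, ?_, ?_, ?_, ?_, ?_⟩
    · rw [Fintype.card_fun, Fintype.card_bool, Fintype.card_fin]
    · rw [Fintype.card_fun, Fintype.card_bool, Fintype.card_fin]
    · intro e b
      convert gp_fiber e b
    · exact ghasGap
    · rw [Fintype.card_fun, Fintype.card_bool, Fintype.card_fin]
      exact Nat.lt_two_pow_self.le
    · intro w e
      exact lin_perfect w e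
    · intro w w' hw
      convert lin_agree (l := l) w w' hw

end Pool.Agent.Results.MP_ec946a_lc.PerfectClusters
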